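import Pool.Agent.Lib.MP_7aba48_co_TF.KL
import Pool.Agent.Lib.MP_7aba48_co_TK.Main

/-!
# Two blocks with a preference for the vertices of maximum degree

`X` and its complement minimise a weighted number of inner edges and, after that, the number of
vertices outside their preferred block (`P` prefers `X`, the complement of `P` prefers the
complement of `X`). A vertex which could be moved for free is in its preferred block.
-/

namespace Pool.Agent.Lib.MP_7aba48_co_HB

open Finset Pool.Agent.Lib.MP_7aba48_co_G5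

universe u

variable {V : Type u} [DecidableEq V] {G : SimpleGraph V}

private theorem dgu {v : V} {A B : Finset V} (h : Disjoint A B) :
    dg G v (A ∪ B) = dg G v A + dg G v B := by
  unfold dg
  have h1 : nb G v (A ∪ B) = nb G v A ∪ nb G v B := by
    ext w
    simp only [mem_nb, Finset.mem_union]
    tauto
  rw [h1, Finset.card_union_of_disjoint]
  rw [Finset.disjoint_left] at h ⊢
  intro w hw hw'
  exact h (mem_nb.1 hw).1 (mem_nb.1 hw').1

open Classical in
private theorem dgi {v x : V} {S : Finset V} (hx : x ∉ S) :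
    dg G v (insert x S) = dg G v S + if G.Adj v x then 1 else 0 := by
  unfold dg
  by_cases h : G.Adj v x
  · rw [if_pos h]
    have h1 : nb G v (insert x S) = insert x (nb G v S) := by
      ext w
      simp only [mem_nb, Finset.mem_insert]
      constructor
      · rintro ⟨h1 | h1, h2⟩
        · exact Or.inl h1
        · exact Or.inr ⟨h1, h2⟩
      · rintro (h1 | ⟨h1, h2⟩)
        · exact ⟨Or.inl h1, h1 ▸ h⟩
        · exact ⟨Or.inr h1, h2⟩
    rw [h1, Finset.card_insert_of_notMem]
    exact fun h2 => hx (mem_nb.1 h2).1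
  · rw [if_neg h]
    have h1 : nb G v (insert x S) = nb G v S := by
      ext w
      simp only [mem_nb, Finset.mem_insert]
      constructor
      · rintro ⟨h1 | h1, h2⟩
        · exact absurd (h1 ▸ h2) h
        · exact ⟨h1, h2⟩
      · exact fun ⟨h1, h2⟩ => ⟨Or.inr h1, h2⟩
    rw [h1, add_zero]

private theorem dgi_self {x : V} {S : Finset V} (hx : x ∉ S) :
    dg G x (insert x S) = dg G x S := by
  classical
  rw [dgi hx, if_neg (G.loopless.irrefl x), add_zero]

private theorem dge_self (x : V) (S : Finset V) : dg G x (S.erase x) = dg G x S := by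
  by_cases hx : x ∈ S
  · conv_rhs => rw [← Finset.insert_erase hx]
    rw [dgi_self (Finset.notMem_erase x S)]
  · rw [Finset.erase_eq_of_notMem hx]

/-- Twice the number of edges inside `S`. -/
noncomputable def ee (G : SimpleGraph V) (S : Finset V) : ℕ := ∑ v ∈ S, dg G v S

theorem ee_insert {x : V} {S : Finset V} (hx : x ∉ S) :
    ee G (insert x S) = ee G S + 2 * dg G x S := by
  classical
  unfold ee
  rw [Finset.sum_insert hx, dgi_self hx]
  have h1 : ∑ v ∈ S, dg G v (insert x S) = ∑ v ∈ S, dg G v S + dg G x S := by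
    have h2 : ∑ v ∈ S, (if G.Adj v x then 1 else 0) = dg G x S := by
      rw [← Finset.card_filter]
      unfold dg
      congr 1
      ext w
      simp only [mem_nb, Finset.mem_filter, G.adj_comm]
    rw [← h2, ← Finset.sum_add_distrib]
    exact Finset.sum_congr rfl fun v _ => dgi hx
  rw [h1]
  ring

theorem ee_erase {x : V} {S : Finset V} (hx : x ∈ S) :
    ee G S = ee G (S.erase x) + 2 * dg G x S := by
  have h := ee_insert (G := G) (Finset.notMem_erase x S)
  rwa [Finset.insert_erase hx, dge_self] at h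

/-- The weighted number of inner edges. -/
private noncomputable def wt [Fintype V] (G : SimpleGraph V) (β : ℕ) (X : Finset V) : ℕ :=
  β * ee G X + 4 * ee G Xᶜ

/-- The number of vertices outside their preferred block. -/
private def mis [Fintype V] (P X : Finset V) : ℕ := (X \ P).card + (Xᶜ ∩ P).card

private theorem mis_le [Fintype V] (P X : Finset V) : mis P X ≤ Fintype.card V := by
  unfold mis
  rw [← Finset.card_union_of_disjoint]
  · exact Finset.card_le_univ _
  · rw [Finset.disjoint_left]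
    intro v hv hv'
    exact (Finset.mem_compl.1 (Finset.mem_inter.1 hv').1) (Finset.mem_sdiff.1 hv).1

private theorem mis_out [Fintype V] {P X : Finset V} {v : V} (hv : v ∈ X) (hP : v ∉ P) :
    mis P (X.erase v) + 1 = mis P X := by
  unfold mis
  have h1 : (X.erase v)ᶜ ∩ P = Xᶜ ∩ P := by
    ext w
    simp only [Finset.mem_inter, Finset.mem_compl, Finset.mem_erase, not_and]
    constructor
    · rintro ⟨h1, h2⟩
      refine ⟨fun h3 => h1 (fun h4 => hP (h4 ▸ h2)) h3, h2⟩
    · rintro ⟨h1, h2⟩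
      exact ⟨fun _ h3 => h1 h3, h2⟩
  have h2 : X.erase v \ P = (X \ P).erase v := by
    ext w
    simp only [Finset.mem_sdiff, Finset.mem_erase]
    tauto
  rw [h1, h2]
  have h3 := Finset.card_erase_add_one (Finset.mem_sdiff.2 ⟨hv, hP⟩)
  omega

private theorem mis_in [Fintype V] {P X : Finset V} {v : V} (hv : v ∉ X) (hP : v ∈ P) :
    mis P (insert v X) + 1 = mis P X := by
  unfold mis
  have h1 : insert v X \ P = X \ P := by
    ext w
    simp only [Finset.mem_sdiff, Finset.mem_insert]
    constructor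
    · rintro ⟨h1 | h1, h2⟩
      · exact absurd (h1 ▸ hP) h2
      · exact ⟨h1, h2⟩
    · exact fun ⟨h1, h2⟩ => ⟨Or.inr h1, h2⟩
  have h2 : (insert v X)ᶜ ∩ P = (Xᶜ ∩ P).erase v := by
    ext w
    simp only [Finset.mem_inter, Finset.mem_compl, Finset.mem_insert, Finset.mem_erase, not_or]
    tauto
  rw [h1, h2]
  have h3 := Finset.card_erase_add_one (Finset.mem_inter.2 ⟨Finset.mem_compl.2 hv, hP⟩)
  omega

/-- The two blocks. -/
theorem exists_blocks [Fintype V] (b : ℕ) (hΔ : ∀ v, dg G v univ ≤ 3 * b + 5) (P : Finset V) :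
    ∃ X : Finset V, (∀ v ∈ X, dg G v X ≤ 4) ∧
      (∀ v ∈ X, dg G v X = 4 → dg G v univ = 3 * b + 5 ∧ v ∈ P) ∧
      (∀ v, v ∉ X → dg G v Xᶜ ≤ 3 * b + 1) ∧
      ∀ v, v ∉ X → dg G v Xᶜ = 3 * b + 1 → dg G v univ = 3 * b + 5 ∧ v ∉ P := by
  obtain ⟨β, hβ⟩ : ∃ β, β = 3 * b + 1 := ⟨_, rfl⟩
  obtain ⟨N, hN⟩ : ∃ N, N = Fintype.card V := ⟨_, rfl⟩
  obtain ⟨X, -, hX⟩ := Finset.exists_min_image (univ : Finset (Finset V))
    (fun X => (N + 1) * wt G β X + mis P X) ⟨∅, mem_univ _⟩
  have hsum : ∀ v, dg G v X + dg G v Xᶜ ≤ β + 4 := by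
    intro v
    rw [← dgu disjoint_compl_right, Finset.union_compl]
    have := hΔ v
    omega
  have huniv : ∀ v, dg G v univ = dg G v X + dg G v Xᶜ := by
    intro v
    rw [← dgu disjoint_compl_right, Finset.union_compl]
  -- moving `v` out of `X`
  have hout : ∀ v ∈ X, wt G β X + 8 * dg G v Xᶜ = wt G β (X.erase v) + 2 * β * dg G v X := by
    intro v hv
    have h1 := ee_erase (G := G) hv
    have h2 : (X.erase v)ᶜ = insert v Xᶜ := by
      ext w
      simp only [Finset.mem_compl, Finset.mem_erase, Finset.mem_insert, not_and]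
      constructor
      · intro h
        by_cases hw : w = v
        · exact Or.inl hw
        · exact Or.inr (h hw)
      · rintro (h | h)
        · exact fun h' => absurd h h'
        · exact fun _ => h
    have h3 := ee_insert (G := G) (x := v) (S := Xᶜ) (fun h => Finset.mem_compl.1 h hv)
    unfold wt
    rw [h2, h3, h1]
    ring
  have hin : ∀ v, v ∉ X →
      wt G β X + 2 * β * dg G v X = wt G β (insert v X) + 8 * dg G v Xᶜ := by
    intro v hv
    have h1 := ee_insert (G := G) hv
    have h2 : (insert v X)ᶜ = Xᶜ.erase v := by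
      ext w
      simp only [Finset.mem_compl, Finset.mem_insert, Finset.mem_erase, not_or]
    have h3 := ee_erase (G := G) (x := v) (S := Xᶜ) (Finset.mem_compl.2 hv)
    unfold wt
    rw [h2, h3, h1]
    ring
  have key : ∀ a b' m m' : ℕ, (N + 1) * a + m ≤ (N + 1) * b' + m' → m' ≤ N →
      a ≤ b' ∧ (a = b' → m ≤ m') := by
    intro a b' m m' h1 h2
    constructor
    · by_contra h3
      have h4 : b' + 1 ≤ a := by omega
      have h5 := Nat.mul_le_mul_left (N + 1) h4
      have h6 : (N + 1) * (b' + 1) = (N + 1) * b' + (N + 1) := by ring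
      omega
    · rintro rfl
      omega
  have hX1 : ∀ v ∈ X, β * dg G v X ≤ 4 * dg G v Xᶜ ∧
      (β * dg G v X = 4 * dg G v Xᶜ → v ∈ P) := by
    intro v hv
    have h1 := hout v hv
    have h2 := key _ _ _ _ (hX (X.erase v) (mem_univ _)) (hN ▸ mis_le P _)
    have h3 : 2 * β * dg G v X = 2 * (β * dg G v X) := by ring
    refine ⟨by omega, fun he => ?_⟩
    by_contra hP
    have h4 := mis_out hv hP
    have h5 := h2.2 (by omega)
    omega
  have hX2 : ∀ v, v ∉ X → 4 * dg G v Xᶜ ≤ β * dg G v X ∧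
      (β * dg G v X = 4 * dg G v Xᶜ → v ∉ P) := by
    intro v hv
    have h1 := hin v hv
    have h2 := key _ _ _ _ (hX (insert v X) (mem_univ _)) (hN ▸ mis_le P _)
    have h3 : 2 * β * dg G v X = 2 * (β * dg G v X) := by ring
    refine ⟨by omega, fun he hP => ?_⟩
    have h4 := mis_in hv hP
    have h5 := h2.2 (by omega)
    omega
  refine ⟨X, fun v hv => ?_, fun v hv h4 => ?_, fun v hv => ?_, fun v hv h4 => ?_⟩
  · by_contra h5
    have h6 : 5 ≤ dg G v X := by omega
    have h7 := Nat.mul_le_mul_left β h6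
    have h8 := (hX1 v hv).1
    have h9 := hsum v
    omega
  · have h8 := hX1 v hv
    have h9 := hsum v
    rw [h4] at h8 h9
    have h10 : dg G v Xᶜ = β := by omega
    refine ⟨by rw [huniv, h4, h10, hβ]; ring, h8.2 (by omega)⟩
  · rw [← hβ]
    by_contra h5
    have h8 := (hX2 v hv).1
    have h9 := hsum v
    have h6 : dg G v X ≤ 3 := by omega
    have h7 := Nat.mul_le_mul_left β h6
    omega
  · rw [← hβ] at h4
    have h8 := hX2 v hv
    have h9 := hsum v
    have h10 : dg G v X = 4 := by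
      rcases Nat.lt_or_ge (dg G v X) 4 with h | h
      · exfalso
        have h7 := Nat.mul_le_mul_left β (show dg G v X ≤ 3 by omega)
        omega
      · omega
    refine ⟨by rw [huniv, h4, h10, hβ]; ring, h8.2 (by rw [h4, h10]; ring)⟩

/-- Colourings of two blocks. -/
theorem colorable_add [Fintype V] {X : Finset V} {a b : ℕ}
    (h1 : ∃ f : V → Fin a, ∀ v ∈ X, ∀ w ∈ X, G.Adj v w → f v ≠ f w)
    (h2 : ∃ f : V → Fin b, ∀ v, v ∉ X → ∀ w, w ∉ X → G.Adj v w → f v ≠ f w) :
    G.Colorable (a + b) := by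
  classical
  obtain ⟨f, hf⟩ := h1
  obtain ⟨g, hg⟩ := h2
  have hcol := (SimpleGraph.Coloring.mk
    (fun v => if v ∈ X then (Sum.inl (f v) : Fin a ⊕ Fin b) else Sum.inr (g v))
    (fun {v w} h => by
      by_cases hv : v ∈ X
      · by_cases hw : w ∈ X
        · simp only [hv, hw, if_true, ne_eq, Sum.inl.injEq]
          exact hf v hv w hw h
        · simp only [hv, hw, if_true, if_false, ne_eq, reduceCtorEq, not_false_eq_true]
      · by_cases hw : w ∈ X
        · simp only [hv, hw, if_true, if_false, ne_eq, reduceCtorEq, not_false_eq_true]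
        · simp only [hv, hw, if_false, ne_eq, Sum.inr.injEq]
          exact hg v hv w hw h) : G.Coloring (Fin a ⊕ Fin b)).colorable
  have hcard : Fintype.card (Fin a ⊕ Fin b) = a + b := by
    rw [Fintype.card_sum, Fintype.card_fin, Fintype.card_fin]
  rwa [hcard] at hcol

/-- The block with a three-colouring. -/
theorem block3 [Fintype V] (hT : NoTri G) {X : Finset V} (h4 : ∀ v ∈ X, dg G v X ≤ 4)
    (hind : ∀ v ∈ X, ∀ w ∈ X, dg G v X = 4 → dg G w X = 4 → ¬ G.Adj v w) :
    ∃ f : V → Fin 3, ∀ v ∈ X, ∀ w ∈ X, G.Adj v w → f v ≠ f w := by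
  classical
  obtain ⟨f, hf⟩ := Pool.Agent.Lib.MP_7aba48_co_TF.col3 hT (S := X)
    (T := X.filter fun v => dg G v X = 4) (by
      intro s hs t ht
      exact hind s (mem_filter.1 hs).1 t (mem_filter.1 ht).1 (mem_filter.1 hs).2
        (mem_filter.1 ht).2) (fun t ht => h4 t (mem_filter.1 ht).1) (by
      intro v hv hvT
      have h1 := h4 v hv
      have h2 : dg G v X ≠ 4 := fun h => hvT (mem_filter.2 ⟨hv, h⟩)
      omega)
  exact ⟨f, hf⟩

/-- The block coloured by the theorem on graphs of maximum degree `3b`. -/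
theorem blockT [Fintype V] (hT : NoTri G) {Y : Finset V} (b : ℕ)
    (h3 : ∀ v ∈ Y, dg G v Y ≤ 3 * b) :
    ∃ f : V → Fin (2 * b + 1), ∀ v ∈ Y, ∀ w ∈ Y, G.Adj v w → f v ≠ f w := by
  classical
  let H : SimpleGraph V :=
    { Adj := fun v w => G.Adj v w ∧ v ∈ Y ∧ w ∈ Y
      symm := ⟨fun _ _ h => ⟨h.1.symm, h.2.2, h.2.1⟩⟩
      loopless := ⟨fun _ h => G.loopless.irrefl _ h.1⟩ }
  have hH : ∀ v w, H.Adj v w ↔ G.Adj v w ∧ v ∈ Y ∧ w ∈ Y := fun _ _ => Iff.rfl
  have hHT : NoTri H := fun a b c h1 h2 h3 => hT a b c h1.1 h2.1 h3.1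
  have hd : ∀ v, dg H v univ ≤ 3 * b := by
    intro v
    by_cases hv : v ∈ Y
    · refine le_trans (card_le_card fun w hw => ?_) (h3 v hv)
      have h4 := (hH v w).1 (mem_nb.1 hw).2
      exact mem_nb.2 ⟨h4.2.2, h4.1⟩
    · have h5 : nb H v univ = ∅ := by
        rw [Finset.eq_empty_iff_forall_notMem]
        intro w hw
        exact hv ((hH v w).1 (mem_nb.1 hw).2).2.1
      unfold dg
      rw [h5, card_empty]
      omega
  obtain ⟨c⟩ := Pool.Agent.Lib.MP_7aba48_co_TK.colorable b hHT hd
  exact ⟨c, fun v hv w hw hvw => c.valid ((hH v w).2 ⟨hvw, hv, hw⟩)⟩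

/-- Triangle-free graphs of maximum degree at most `3b + 5` in which the vertices of degree
`3b + 5` are pairwise non-adjacent. -/
theorem colorable_indep [Fintype V] (hT : NoTri G) (b : ℕ)
    (hΔ : ∀ v, dg G v univ ≤ 3 * b + 5)
    (hind : ∀ v w, dg G v univ = 3 * b + 5 → dg G w univ = 3 * b + 5 → ¬ G.Adj v w) :
    G.Colorable (2 * b + 4) := by
  classical
  obtain ⟨X, h1, h2, h3, h4⟩ := exists_blocks b hΔ (univ : Finset V)
  have h5 := colorable_add (G := G) (X := X) (block3 hT h1 fun v hv w hw hv4 hw4 =>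
    hind v w (h2 v hv hv4).1 (h2 w hw hw4).1) (b := 2 * b + 1) (by
      obtain ⟨f, hf⟩ := blockT hT (Y := Xᶜ) b (by
        intro v hv
        rw [mem_compl] at hv
        have h6 := h3 v hv
        have h7 : dg G v Xᶜ ≠ 3 * b + 1 := fun h => (h4 v hv h).2 (mem_univ _)
        omega)
      exact ⟨f, fun v hv w hw => hf v (mem_compl.2 hv) w (mem_compl.2 hw)⟩)
  exact h5.mono (by omega)

/-- Triangle-free graphs of maximum degree at most eight in which the vertices of degree eight
induce a bipartite graph with classes `P` and its complement. -/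
theorem colorable_six [Fintype V] (hT : NoTri G) (hΔ : ∀ v, dg G v univ ≤ 8) (P : Finset V)
    (hind : ∀ v w, dg G v univ = 8 → dg G w univ = 8 → G.Adj v w → ¬ (v ∈ P ↔ w ∈ P)) :
    G.Colorable 6 := by
  classical
  obtain ⟨X, h1, h2, h3, h4⟩ := exists_blocks 1 hΔ P
  have h5 := colorable_add (G := G) (X := X) (block3 hT h1 fun v hv w hw hv4 hw4 hvw =>
    hind v w (h2 v hv hv4).1 (h2 w hw hw4).1 hvw
      (iff_of_true (h2 v hv hv4).2 (h2 w hw hw4).2)) (b := 3) (by
      obtain ⟨f, hf⟩ := block3 hT (X := Xᶜ) (fun v hv => h3 v (mem_compl.1 hv))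
        (fun v hv w hw hv4 hw4 hvw => hind v w (h4 v (mem_compl.1 hv) hv4).1
          (h4 w (mem_compl.1 hw) hw4).1 hvw
          (iff_of_false (h4 v (mem_compl.1 hv) hv4).2 (h4 w (mem_compl.1 hw) hw4).2))
      exact ⟨f, fun v hv w hw => hf v (mem_compl.2 hv) w (mem_compl.2 hw)⟩)
  exact h5

/-- Triangle-free graphs of maximum degree at most five in which the vertices of degree five
induce a bipartite graph with classes `P` and its complement. -/
theorem colorable_four [Fintype V] (hT : NoTri G) (hΔ : ∀ v, dg G v univ ≤ 5) (P : Finset V)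
    (hind : ∀ v w, dg G v univ = 5 → dg G w univ = 5 → G.Adj v w → ¬ (v ∈ P ↔ w ∈ P)) :
    G.Colorable 4 := by
  classical
  obtain ⟨X, h1, h2, h3, h4⟩ := exists_blocks 0 hΔ P
  have h5 := colorable_add (G := G) (X := X) (block3 hT h1 fun v hv w hw hv4 hw4 hvw =>
    hind v w (h2 v hv hv4).1 (h2 w hw hw4).1 hvw
      (iff_of_true (h2 v hv hv4).2 (h2 w hw hw4).2)) (b := 1) (by
      refine ⟨fun _ => 0, fun v hv w hw hvw => ?_⟩
      exfalso
      have h6 : 1 ≤ dg G v Xᶜ := card_pos.2 ⟨w, mem_nb.2 ⟨mem_compl.2 hw, hvw⟩⟩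
      have h7 : 1 ≤ dg G w Xᶜ := card_pos.2 ⟨v, mem_nb.2 ⟨mem_compl.2 hv, hvw.symm⟩⟩
      have h8 := h3 v hv
      have h9 := h3 w hw
      exact hind v w (h4 v hv (by omega)).1 (h4 w hw (by omega)).1 hvw
        (iff_of_false (h4 v hv (by omega)).2 (h4 w hw (by omega)).2))
  exact h5

end Pool.Agent.Lib.MP_7aba48_co_HB
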